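import Mathlib


namespace Pool.Agent.H.MP_bac04d_nt

open Complex MeasureTheory Set Filter Topology Asymptotics
open scoped Real ComplexConjugate

lemma norm_Gamma_le {z : ℂ} (hz : 0 < z.re) : ‖Gamma z‖ ≤ Real.Gamma z.re := by
  rw [Gamma_eq_integral hz, Real.Gamma_eq_integral hz, GammaIntegral]
  refine (norm_integral_le_integral_norm _).trans (le_of_eq ?_)
  refine setIntegral_congr_fun measurableSet_Ioi fun x hx => ?_
  simp only [norm_mul, norm_real, Real.norm_eq_abs, abs_of_pos (Real.exp_pos _)]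
  rw [norm_cpow_eq_rpow_re_of_pos hx]
  simp

lemma norm_Gamma_shift {z : ℂ} (hz : 1 ≤ |z.im|) (n : ℕ) : ‖Gamma z‖ ≤ ‖Gamma (z + n)‖ := by
  induction n with
  | zero => simp
  | succ n ih =>
    have h1 : 1 ≤ ‖z + n‖ := by
      refine hz.trans (le_trans (le_of_eq ?_) (abs_im_le_norm _))
      simp
    have h0 : z + n ≠ 0 := by
      intro h; rw [h, norm_zero] at h1; linarith
    rw [Nat.cast_succ, ← add_assoc, Gamma_add_one _ h0, norm_mul]
    nlinarith [norm_nonneg (Gamma (z + n))]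

lemma norm_sin_le (z : ℂ) : ‖sin z‖ ≤ Real.exp |z.im| := by
  rw [sin, norm_div, norm_mul, norm_I, mul_one]
  have h1 : ‖exp (-z * I)‖ ≤ Real.exp |z.im| := by
    rw [norm_exp]; apply Real.exp_le_exp.2; simpa using le_abs_self _
  have h2 : ‖exp (z * I)‖ ≤ Real.exp |z.im| := by
    rw [norm_exp]; apply Real.exp_le_exp.2; simpa using neg_le_abs _
  have := norm_sub_le (exp (-z * I)) (exp (z * I))
  have h3 : ‖(2 : ℂ)‖ = 2 := by simp
  rw [h3]; linarith

lemma inv_Gamma_bound (a b : ℝ) : ∃ C : ℝ, 0 ≤ C ∧ ∀ w : ℂ, a ≤ w.re → w.re ≤ b → 1 ≤ |w.im| →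
    ‖(Gamma w)⁻¹‖ ≤ C * Real.exp (π * |w.im|) := by
  obtain ⟨n, hn⟩ := exists_nat_gt b
  have hc : ContinuousOn Real.Gamma (Icc (1 - b + n) (1 - a + n)) := fun x hx => by
    refine (Real.differentiableAt_Gamma fun m => ?_).continuousAt.continuousWithinAt
    have := hx.1
    have := Nat.cast_nonneg (α := ℝ) m
    intro h; linarith
  obtain ⟨K, hK⟩ := isCompact_Icc.exists_bound_of_continuousOn hc
  refine ⟨|K|, abs_nonneg _, fun w ha hb hw => ?_⟩
  have hsin : sin (π * w) ≠ 0 := by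
    intro h
    obtain ⟨j, hj⟩ := Complex.sin_eq_zero_iff.1 h
    have := congrArg im hj
    simp at this
    rw [this] at hw; norm_num at hw
  have hG : Gamma w ≠ 0 := Gamma_ne_zero fun m h => by
    rw [h] at hw; simp at hw; linarith
  have hpi : (π : ℂ) ≠ 0 := ofReal_ne_zero.2 Real.pi_ne_zero
  have key : (Gamma w)⁻¹ = Gamma (1 - w) * sin (π * w) / π := by
    have := Gamma_mul_Gamma_one_sub w
    rw [eq_div_iff hsin] at this
    rw [eq_div_iff hpi, inv_mul_eq_iff_eq_mul₀ hG, ← mul_assoc]; exact this.symm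
  have h1 : ‖Gamma (1 - w)‖ ≤ |K| := by
    refine (norm_Gamma_shift (by simpa using hw) n).trans ?_
    have hp : 0 < (1 - w + n).re := by simp; linarith
    refine (norm_Gamma_le hp).trans ((le_abs_self _).trans ((hK _ ?_).trans (le_abs_self _)))
    constructor <;> simp <;> linarith
  have h2 : ‖sin (π * w)‖ ≤ Real.exp (π * |w.im|) := by
    refine (norm_sin_le _).trans (le_of_eq ?_)
    simp [abs_mul, abs_of_pos Real.pi_pos]
  rw [key, norm_div, norm_mul, norm_real, Real.norm_eq_abs, abs_of_pos Real.pi_pos]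
  refine (div_le_self (by positivity) (by linarith [Real.pi_gt_three])).trans ?_
  exact mul_le_mul h1 h2 (norm_nonneg _) (abs_nonneg _)

lemma inv_Gamma_prod (w : ℂ) (m : ℕ) :
    (Gamma w)⁻¹ = (∏ j ∈ Finset.range m, (w + j)) * (Gamma (w + m))⁻¹ := by
  induction m with
  | zero => simp
  | succ m ih =>
    rw [Finset.prod_range_succ, ih, one_div_Gamma_eq_self_mul_one_div_Gamma_add_one (w + m)]
    push_cast
    rw [add_assoc]; ring

theorem growth (Λ : ℂ → ℂ) (k : ℕ) (hd : Differentiable ℂ Λ) (hfe : ∀ w, Λ (k - w) = Λ w)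
    (hb : ∀ a b : ℝ, ∃ K, ∀ w : ℂ, a ≤ w.re → w.re ≤ b → ‖Λ w‖ ≤ K)
    (x0 : ℝ) (hB' : ∀ r : ℝ, x0 ≤ r → ∃ B, ∀ w : ℂ, w.re = r → ‖Λ w * (Gamma w)⁻¹‖ ≤ B)
    (a b : ℝ) :
    ∃ (C : ℝ) (M : ℕ), 0 ≤ C ∧ ∀ w : ℂ, a ≤ w.re → w.re ≤ b →
      ‖Λ w * (Gamma w)⁻¹‖ ≤ C * (1 + |w.im|) ^ M := by
  obtain ⟨m, hm⟩ := exists_nat_gt (2 * |x0| + 2 * |a| + 2 * |b| + k)
  have hk : (0 : ℝ) ≤ k := Nat.cast_nonneg k
  have hx0 := le_abs_self x0
  have hx0' := abs_nonneg x0
  have ha' := neg_abs_le a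
  have ha0 := abs_nonneg a
  have hb' := le_abs_self b
  have hb0 := abs_nonneg b
  have hm0 : (0 : ℝ) < m := by linarith
  obtain ⟨l, hl⟩ : ∃ l : ℝ, l = (k - m) / 2 := ⟨_, rfl⟩
  obtain ⟨r, hr⟩ : ∃ r : ℝ, r = (k + m) / 2 := ⟨_, rfl⟩
  obtain ⟨p, hp⟩ : ∃ p : ℝ, p = 2 * m + 1 := ⟨_, rfl⟩
  obtain ⟨B, hB⟩ := hB' r (by linarith)
  have hB0 : 0 ≤ B := (norm_nonneg _).trans (hB r (by simp))
  have hone : ∀ w : ℂ, l ≤ w.re → 1 ≤ ‖w + p‖ := fun w hw => by
    refine le_trans ?_ (re_le_norm _)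
    simp; linarith
  have hL : Differentiable ℂ fun w => Λ w * (Gamma w)⁻¹ := hd.mul differentiable_one_div_Gamma
  have hPL : ∀ w : ℂ, l ≤ w.re → w.re ≤ r → ‖Λ w * (Gamma w)⁻¹ / (w + p) ^ m‖ ≤ B := by
    intro w h1 h2
    refine PhragmenLindelof.vertical_strip (f := fun w => Λ w * (Gamma w)⁻¹ / (w + p) ^ m)
      (a := l) (b := r) ?_ ?_ ?_ ?_ h1 h2
    · apply DifferentiableOn.diffContOnCl
      refine (hL.differentiableOn).div (by fun_prop) fun z hz => ?_
      have hz' : l ≤ z.re := by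
        have : closure (re ⁻¹' Ioo l r) ⊆ re ⁻¹' Ici l :=
          closure_minimal (fun x hx => le_of_lt hx.1) (isClosed_Ici.preimage continuous_re)
        exact this hz
      refine pow_ne_zero _ fun h => ?_
      have := hone z hz'
      rw [h, norm_zero] at this; linarith
    · obtain ⟨K, hK⟩ := hb l r
      obtain ⟨C, hC0, hC⟩ := inv_Gamma_bound l r
      refine ⟨1 / m, ?_, π * m, ?_⟩
      · have : r - l = m := by rw [hr, hl]; ring
        rw [this]
        exact div_lt_div_of_pos_right (by linarith [Real.pi_gt_three]) hm0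
      · refine IsBigO.of_bound (|K| * C) ?_
        rw [eventually_inf_principal]
        have : ∀ᶠ z : ℂ in comap (_root_.abs ∘ im) atTop, 1 ≤ |z.im| :=
          tendsto_comap.eventually (eventually_ge_atTop (1 : ℝ))
        filter_upwards [this] with z hz hz2
        have e1 := hK z hz2.1.le hz2.2.le
        have e2 := hC z hz2.1.le hz2.2.le hz
        have e3 : Real.exp (π * |z.im|) ≤ Real.exp (π * m * Real.exp (1 / m * |z.im|)) := by
          apply Real.exp_le_exp.2
          have h3 : 1 / m * |z.im| ≤ Real.exp (1 / m * |z.im|) := by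
            linarith [Real.add_one_le_exp (1 / m * |z.im|)]
          have h4 : π * |z.im| = π * m * (1 / m * |z.im|) := by field_simp
          rw [h4]
          exact mul_le_mul_of_nonneg_left h3 (by positivity)
        rw [norm_div, norm_pow, Real.norm_eq_abs, abs_of_pos (Real.exp_pos _)]
        refine (div_le_self (norm_nonneg _) (one_le_pow₀ (hone z hz2.1.le))).trans ?_
        rw [norm_mul, mul_assoc]
        exact mul_le_mul (e1.trans (le_abs_self _))
          (e2.trans (mul_le_mul_of_nonneg_left e3 hC0)) (norm_nonneg _) (abs_nonneg _)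
    · intro z hz
      have h3 : conj ((k : ℂ) - z) = z + m := by
        apply Complex.ext <;> simp
        rw [hz, hl]; ring
      have h4 : ‖(Gamma (z + m))⁻¹‖ = ‖(Gamma (k - z))⁻¹‖ := by
        rw [← h3, Gamma_conj, norm_inv, norm_inv, norm_conj]
      have h5 := hB (k - z) (by simp; linarith)
      have h6 : ‖∏ j ∈ Finset.range m, (z + j)‖ ≤ ‖z + p‖ ^ m := by
        rw [norm_prod]
        refine (Finset.prod_le_prod (g := fun _ => ‖z + p‖) (fun _ _ => norm_nonneg _)
          fun j hj => ?_).trans (by simp)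
        have hj' : (j : ℝ) ≤ m := by exact_mod_cast (Finset.mem_range.1 hj).le
        have hj0 : (0 : ℝ) ≤ j := Nat.cast_nonneg j
        apply abs_le_of_sq_le_sq' _ (norm_nonneg _) |>.2
        rw [Complex.sq_norm, Complex.sq_norm, normSq_apply, normSq_apply]
        simp
        nlinarith
      have h7 : 0 < ‖z + p‖ ^ m := pow_pos (by linarith [hone z hz.ge]) _
      rw [norm_div, norm_pow, div_le_iff₀ h7, inv_Gamma_prod z m, norm_mul, norm_mul, h4,
        ← hfe z]
      rw [norm_mul] at h5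
      calc ‖Λ (k - z)‖ * (‖∏ j ∈ Finset.range m, (z + j)‖ * ‖(Gamma (k - z))⁻¹‖)
          = (‖Λ (k - z)‖ * ‖(Gamma (k - z))⁻¹‖) * ‖∏ j ∈ Finset.range m, (z + j)‖ := by ring
        _ ≤ _ := mul_le_mul h5 h6 (norm_nonneg _) hB0
    · intro z hz
      rw [norm_div, norm_pow]
      refine (div_le_self (norm_nonneg _) (one_le_pow₀ (hone z (by linarith)))).trans ?_
      exact hB z hz
  have hrp : 1 ≤ r + p := by linarith
  refine ⟨B * (r + p) ^ m, m, by positivity, fun w h1 h2 => ?_⟩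
  have h3 := hPL w (by linarith) (by linarith)
  have h7 : 0 < ‖w + p‖ ^ m := pow_pos (by linarith [hone w (by linarith)]) _
  rw [norm_div, norm_pow, div_le_iff₀ h7] at h3
  refine h3.trans ?_
  rw [mul_assoc, ← mul_pow]
  refine mul_le_mul_of_nonneg_left (pow_le_pow_left₀ (norm_nonneg _) ?_ _) hB0
  refine (norm_le_abs_re_add_abs_im _).trans ?_
  have h8 : |(w + p).re| ≤ r + p := by
    rw [abs_le]; constructor <;> simp <;> linarith
  have h9 : (w + p).im = w.im := by simp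
  rw [h9]
  nlinarith [abs_nonneg w.im]

end Pool.Agent.H.MP_bac04d_nt
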