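import Mathlib


namespace Pool.Agent.H.MP_bac04d_nt

open Real MeasureTheory Set Filter Topology

lemma int_exp (k : ℕ) {a : ℝ} (ha : 0 < a) :
    IntegrableOn (fun u : ℝ => u ^ k * exp (-a * u)) (Ioi 0) ∧
      ∫ u in Ioi (0 : ℝ), u ^ k * exp (-a * u) = Gamma (k + 1) / a ^ (k + 1) := by
  constructor
  · have := integrableOn_rpow_mul_exp_neg_mul_rpow (p := 1) (s := k) (b := a)
      (by linarith [Nat.cast_nonneg (α := ℝ) k]) one_pos ha
    simpa using this
  · have := integral_rpow_mul_exp_neg_mul_Ioi (a := k + 1) (r := a) (by positivity) ha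
    simp only [add_sub_cancel_right, rpow_natCast] at this
    simp only [neg_mul]
    rw [this, ← Nat.cast_add_one, rpow_natCast, one_div, inv_pow]
    field_simp

/-- anti-invariant test functions -/
noncomputable def fy (k : ℕ) (y u : ℝ) : ℝ := exp (-y * u) - (y ^ k)⁻¹ * exp (-y⁻¹ * u)

/-- their derivatives -/
noncomputable def fy' (k : ℕ) (y u : ℝ) : ℝ :=
  -y * exp (-y * u) + (y ^ k)⁻¹ * y⁻¹ * exp (-y⁻¹ * u)

lemma fy_deriv (k : ℕ) (y u : ℝ) : HasDerivAt (fy k y) (fy' k y u) u := by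
  have h1 : ∀ a : ℝ, HasDerivAt (fun u => exp (-a * u)) (-a * exp (-a * u)) u := fun a => by
    simpa [mul_comm] using ((hasDerivAt_id u).const_mul (-a)).exp
  refine ((h1 y).sub ((h1 y⁻¹).const_mul (y ^ k)⁻¹)).congr_deriv ?_
  unfold fy'
  ring

lemma four (k : ℕ) {a b c d : ℝ} (ha : 0 < a) (hb : 0 < b) (hc : 0 < c) (hd : 0 < d)
    (p q r s : ℝ) :
    IntegrableOn (fun u : ℝ => u ^ k * ((p * exp (-a * u) + q * exp (-b * u)) *
      (r * exp (-c * u) + s * exp (-d * u)))) (Ioi 0) ∧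
    ∫ u in Ioi (0 : ℝ), u ^ k * ((p * exp (-a * u) + q * exp (-b * u)) *
      (r * exp (-c * u) + s * exp (-d * u))) = Gamma (k + 1) *
        (p * r / (a + c) ^ (k + 1) + p * s / (a + d) ^ (k + 1) + q * r / (b + c) ^ (k + 1) +
          q * s / (b + d) ^ (k + 1)) := by
  have e : (fun u : ℝ => u ^ k * ((p * exp (-a * u) + q * exp (-b * u)) *
      (r * exp (-c * u) + s * exp (-d * u)))) = fun u =>
      p * r * (u ^ k * exp (-(a + c) * u)) + p * s * (u ^ k * exp (-(a + d) * u)) +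
        q * r * (u ^ k * exp (-(b + c) * u)) + q * s * (u ^ k * exp (-(b + d) * u)) := by
    funext u
    simp only [neg_add, add_mul, exp_add]
    ring
  obtain ⟨i1, j1⟩ := int_exp k (add_pos ha hc)
  obtain ⟨i2, j2⟩ := int_exp k (add_pos ha hd)
  obtain ⟨i3, j3⟩ := int_exp k (add_pos hb hc)
  obtain ⟨i4, j4⟩ := int_exp k (add_pos hb hd)
  rw [e]
  refine ⟨(((i1.const_mul _).add (i2.const_mul _)).add (i3.const_mul _)).add (i4.const_mul _), ?_⟩
  rw [integral_add, integral_add, integral_add, integral_const_mul, integral_const_mul,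
    integral_const_mul, integral_const_mul, j1, j2, j3, j4]
  · ring
  · exact i1.const_mul _
  · exact i2.const_mul _
  · exact (i1.const_mul _).add (i2.const_mul _)
  · exact i3.const_mul _
  · exact ((i1.const_mul _).add (i2.const_mul _)).add (i3.const_mul _)
  · exact i4.const_mul _

lemma pair (k : ℕ) {y z : ℝ} (hy : 0 < y) (hz : 0 < z) :
    IntegrableOn (fun u : ℝ => u ^ k * (fy k y u * fy k z u)) (Ioi 0) ∧
    IntegrableOn (fun u : ℝ => u ^ k * (fy' k y u * fy' k z u)) (Ioi 0) ∧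
    ∫ u in Ioi (0 : ℝ), u ^ k * (fy k y u * fy k z u) =
      ∫ u in Ioi (0 : ℝ), u ^ k * (fy' k y u * fy' k z u) := by
  obtain ⟨a1, a2⟩ := four k hy (inv_pos.2 hy) hz (inv_pos.2 hz) 1 (-(y ^ k)⁻¹) 1 (-(z ^ k)⁻¹)
  obtain ⟨b1, b2⟩ := four k hy (inv_pos.2 hy) hz (inv_pos.2 hz) (-y) ((y ^ k)⁻¹ * y⁻¹) (-z)
    ((z ^ k)⁻¹ * z⁻¹)
  have e : (fun u : ℝ => u ^ k * (fy k y u * fy k z u)) = fun u => u ^ k *
      ((1 * exp (-y * u) + -(y ^ k)⁻¹ * exp (-y⁻¹ * u)) *
        (1 * exp (-z * u) + -(z ^ k)⁻¹ * exp (-z⁻¹ * u))) := by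
    funext u
    unfold fy
    ring
  rw [e]
  refine ⟨a1, b1, a2.trans (Eq.trans ?_ b2.symm)⟩
  congr 1
  have e1 : y + z⁻¹ = (y * z + 1) / z := by field_simp
  have e2 : y⁻¹ + z = (y * z + 1) / y := by field_simp; ring
  have e3 : y⁻¹ + z⁻¹ = (y + z) / (y * z) := by field_simp; ring
  rw [e1, e2, e3, div_pow, div_pow, div_pow, mul_pow, pow_succ y, pow_succ z]
  field_simp
  ring

lemma poincare (k : ℕ) (f f' : ℝ → ℝ) (hf : ∀ u, HasDerivAt f (f' u) u) (hc : Continuous f')
    {p q : ℝ} (hp : 0 ≤ p) (hpq : p ≤ q) (hw : q - p ≤ 1 / 4) :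
    ∫ u in p..q, u ^ k * f u ^ 2 ≤
      1 / 2 * (q ^ k * f q ^ 2) + 1 / 4 * ∫ u in p..q, u ^ k * f' u ^ 2 := by
  have hfc : Continuous f := continuous_iff_continuousAt.2 fun u => (hf u).continuousAt
  have h1 : ∀ u, HasDerivAt (fun u => (u - p) * u ^ k * f u ^ 2)
      (u ^ k * f u ^ 2 + (u - p) * (k * u ^ (k - 1)) * f u ^ 2 +
        (u - p) * u ^ k * (2 * f u * f' u)) u := by
    intro u
    refine ((((hasDerivAt_id u).sub_const p).mul (hasDerivAt_pow k u)).mul
      ((hf u).pow 2)).congr_deriv ?_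
    simp
    ring
  have h2 := intervalIntegral.integral_eq_sub_of_hasDerivAt (a := p) (b := q) (fun u _ => h1 u)
    (Continuous.intervalIntegrable (by fun_prop) _ _)
  have h3 : ∫ u in p..q, (1 / 2 * (u ^ k * f u ^ 2) - 1 / 8 * (u ^ k * f' u ^ 2)) ≤
      ∫ u in p..q, (u ^ k * f u ^ 2 + (u - p) * (k * u ^ (k - 1)) * f u ^ 2 +
        (u - p) * u ^ k * (2 * f u * f' u)) := by
    refine intervalIntegral.integral_mono_on hpq (Continuous.intervalIntegrable (by fun_prop) _ _)
      (Continuous.intervalIntegrable (by fun_prop) _ _) fun u hu => ?_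
    have hu0 : 0 ≤ u := hp.trans hu.1
    have h4 : 0 ≤ u - p := by linarith [hu.1]
    have h5 : u - p ≤ 1 / 4 := by linarith [hu.2]
    have h6 : 0 ≤ (u - p) * (k * u ^ (k - 1)) * f u ^ 2 := by positivity
    have h7 : 0 ≤ u ^ k := by positivity
    have h8 : 0 ≤ 1 / 2 * f u ^ 2 + 1 / 8 * f' u ^ 2 + (u - p) * (2 * f u * f' u) := by
      have h9 : (u - p) ^ 2 ≤ 1 / 16 := by nlinarith
      nlinarith [sq_nonneg (f u + 2 * (u - p) * f' u), mul_nonneg (sub_nonneg.2 h9)
        (sq_nonneg (f' u))]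
    nlinarith [mul_nonneg h7 h8]
  rw [h2, intervalIntegral.integral_sub (Continuous.intervalIntegrable (by fun_prop) _ _)
    (Continuous.intervalIntegrable (by fun_prop) _ _), intervalIntegral.integral_const_mul,
    intervalIntegral.integral_const_mul] at h3
  have h10 : 0 ≤ q ^ k * f q ^ 2 := by
    have : 0 ≤ q := hp.trans hpq
    positivity
  simp only [sub_self, zero_mul, sub_zero] at h3
  nlinarith

lemma first_node (k : ℕ) (f f' : ℝ → ℝ) (hf : ∀ u, HasDerivAt f (f' u) u) (hc : Continuous f')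
    {p q : ℝ} (hp : 0 ≤ p) (hpq : p ≤ q) (hw : q - p ≤ 1 / 4) :
    (q - p) * (p ^ k * f p ^ 2) ≤
      2 * (∫ u in p..q, u ^ k * f u ^ 2) + ∫ u in p..q, u ^ k * f' u ^ 2 := by
  have hfc : Continuous f := continuous_iff_continuousAt.2 fun u => (hf u).continuousAt
  have h1 : ∀ u, HasDerivAt (fun u => p ^ k * ((u - q) * f u ^ 2))
      (p ^ k * (f u ^ 2 + (u - q) * (2 * f u * f' u))) u := by
    intro u
    refine ((((hasDerivAt_id u).sub_const q).mul ((hf u).pow 2)).const_mul _).congr_deriv ?_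
    simp
  have h2 := intervalIntegral.integral_eq_sub_of_hasDerivAt (a := p) (b := q) (fun u _ => h1 u)
    (Continuous.intervalIntegrable (by fun_prop) _ _)
  have h3 : ∫ u in p..q, p ^ k * (f u ^ 2 + (u - q) * (2 * f u * f' u)) ≤
      ∫ u in p..q, (2 * (u ^ k * f u ^ 2) + u ^ k * f' u ^ 2) := by
    refine intervalIntegral.integral_mono_on hpq (Continuous.intervalIntegrable (by fun_prop) _ _)
      (Continuous.intervalIntegrable (by fun_prop) _ _) fun u hu => ?_
    have h4 : 0 ≤ q - u := by linarith [hu.2]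
    have h5 : q - u ≤ 1 / 4 := by linarith [hu.1]
    have h7 : p ^ k ≤ u ^ k := pow_le_pow_left₀ hp hu.1 k
    have h7' : 0 ≤ p ^ k := by positivity
    have h8 : f u ^ 2 + (u - q) * (2 * f u * f' u) ≤ 2 * f u ^ 2 + f' u ^ 2 := by
      have h9 : (q - u) ^ 2 ≤ 1 := by nlinarith
      nlinarith [sq_nonneg (f u + (q - u) * f' u), mul_nonneg (sub_nonneg.2 h9)
        (sq_nonneg (f' u))]
    have h10 : 0 ≤ 2 * f u ^ 2 + f' u ^ 2 := by positivity
    nlinarith [mul_le_mul_of_nonneg_left h8 h7', mul_le_mul_of_nonneg_right h7 h10]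
  rw [h2, intervalIntegral.integral_add (Continuous.intervalIntegrable (by fun_prop) _ _)
    (Continuous.intervalIntegrable (by fun_prop) _ _), intervalIntegral.integral_const_mul] at h3
  simp only [sub_self, zero_mul, mul_zero, zero_sub] at h3
  linarith

lemma sampling (k : ℕ) (f f' : ℝ → ℝ) (hf : ∀ u, HasDerivAt f (f' u) u) (hc : Continuous f')
    (i1 : IntegrableOn (fun u => u ^ k * f u ^ 2) (Ioi 0))
    (i2 : IntegrableOn (fun u => u ^ k * f' u ^ 2) (Ioi 0))
    (hE : ∫ u in Ioi (0 : ℝ), u ^ k * f u ^ 2 = ∫ u in Ioi (0 : ℝ), u ^ k * f' u ^ 2)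
    (lam : ℕ → ℝ) (h0 : 0 < lam 0) (hmono : Monotone lam) (h1 : lam 1 ≤ 1 / 4)
    (hgap : ∀ n, lam (n + 1) - lam n ≤ 1 / 4) (hinf : Tendsto lam atTop atTop)
    (hs : Summable fun n => lam (n + 1) ^ k * f (lam (n + 1)) ^ 2) :
    (lam 1 - lam 0) * (lam 0 ^ k * f (lam 0) ^ 2) ≤
      3 * ∑' n, lam (n + 1) ^ k * f (lam (n + 1)) ^ 2 := by
  have hfc : Continuous f := continuous_iff_continuousAt.2 fun u => (hf u).continuousAt
  have hpos : ∀ n, 0 ≤ lam n := fun n => h0.le.trans (hmono (Nat.zero_le n))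
  have hle : ∀ (g : ℝ → ℝ), IntegrableOn (fun u => u ^ k * g u ^ 2) (Ioi 0) → ∀ p q, 0 ≤ p →
      p ≤ q → ∫ u in p..q, u ^ k * g u ^ 2 ≤ ∫ u in Ioi (0 : ℝ), u ^ k * g u ^ 2 := by
    intro g hg p q hp hpq
    rw [intervalIntegral.integral_of_le hpq]
    refine setIntegral_mono_set hg ?_ (Eventually.of_forall fun u hu => hp.trans_lt hu.1)
    refine (ae_restrict_iff' measurableSet_Ioi).2 (Eventually.of_forall fun u hu => ?_)
    have : 0 < u := hu
    positivity
  have hind : ∀ N, ∫ u in (0 : ℝ)..lam (N + 1), u ^ k * f u ^ 2 ≤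
      1 / 2 * ∑ n ∈ Finset.range (N + 1), lam (n + 1) ^ k * f (lam (n + 1)) ^ 2 +
        1 / 4 * ∫ u in (0 : ℝ)..lam (N + 1), u ^ k * f' u ^ 2 := by
    intro N
    induction N with
    | zero => simpa using poincare k f f' hf hc le_rfl (hpos 1) (by linarith)
    | succ N ih =>
      have := poincare k f f' hf hc (hpos (N + 1)) (hmono (Nat.le_succ (N + 1))) (hgap _)
      rw [Finset.sum_range_succ,
        ← intervalIntegral.integral_add_adjacent_intervals (b := lam (N + 1))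
          (Continuous.intervalIntegrable (by fun_prop) _ _)
          (Continuous.intervalIntegrable (by fun_prop) _ _),
        ← intervalIntegral.integral_add_adjacent_intervals (f := fun u => u ^ k * f' u ^ 2)
          (b := lam (N + 1)) (Continuous.intervalIntegrable (by fun_prop) _ _)
          (Continuous.intervalIntegrable (by fun_prop) _ _)]
      linarith
  have hlim : ∫ u in Ioi (0 : ℝ), u ^ k * f u ^ 2 ≤
      1 / 2 * ∑' n, lam (n + 1) ^ k * f (lam (n + 1)) ^ 2 +
        1 / 4 * ∫ u in Ioi (0 : ℝ), u ^ k * f' u ^ 2 := by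
    refine le_of_tendsto' (intervalIntegral_tendsto_integral_Ioi 0 i1
      (hinf.comp (tendsto_add_atTop_nat 1))) fun N => ?_
    have a1 := hind N
    have a2 := hle f' i2 0 _ le_rfl (hpos (N + 1))
    have a3 := hs.sum_le_tsum (Finset.range (N + 1)) fun n _ =>
      mul_nonneg (pow_nonneg (hpos _) _) (sq_nonneg _)
    simp only [Function.comp]
    linarith
  have b1 := first_node k f f' hf hc h0.le (hmono (Nat.zero_le 1)) (hgap 0)
  have b2 := hle f i1 _ _ h0.le (hmono (Nat.zero_le 1))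
  have b3 := hle f' i2 _ _ h0.le (hmono (Nat.zero_le 1))
  have b4 : 0 ≤ ∑' n, lam (n + 1) ^ k * f (lam (n + 1)) ^ 2 :=
    tsum_nonneg fun n => mul_nonneg (pow_nonneg (hpos _) _) (sq_nonneg _)
  linarith

theorem exists_rel (k : ℕ) (lam : ℕ → ℝ) (h0 : 0 < lam 0) (hmono : StrictMono lam)
    (h1 : lam 1 ≤ 1 / 4) (hgap : ∀ n, lam (n + 1) - lam n ≤ 1 / 4)
    (hinf : Tendsto lam atTop atTop)
    (hsum : ∀ y, 0 < y → Summable fun n => lam n ^ k * exp (-y * lam n)) :
    ∃ a : ℕ → ℝ, Summable (fun n => a n ^ 2) ∧ a ≠ 0 ∧ ∀ y, 0 < y →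
      ∑' n, a n * √(lam n ^ k) * exp (-y * lam n) =
        (y ^ k)⁻¹ * ∑' n, a n * √(lam n ^ k) * exp (-y⁻¹ * lam n) := by
  classical
  have hpos : ∀ n, 0 ≤ lam n := fun n => h0.le.trans (hmono.monotone (Nat.zero_le n))
  have hmem : ∀ y, 0 < y → Memℓp (fun n => √(lam n ^ k) * exp (-y * lam n)) 2 := by
    intro y hy
    refine memℓp_gen ((hsum (2 * y) (by positivity)).congr fun n => ?_)
    simp only [ENNReal.toReal_ofNat, rpow_ofNat, norm_eq_abs, sq_abs, mul_pow,
      sq_sqrt (pow_nonneg (hpos n) k), ← exp_nat_mul]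
    congr 2
    push_cast
    ring
  let e : Ioi (0 : ℝ) → lp (fun _ : ℕ => ℝ) 2 := fun y => ⟨_, hmem y y.2⟩
  let g : Ioi (0 : ℝ) → lp (fun _ : ℕ => ℝ) 2 := fun y =>
    e y - ((y : ℝ) ^ k)⁻¹ • e ⟨(y : ℝ)⁻¹, mem_Ioi.2 (inv_pos.2 (mem_Ioi.1 y.2))⟩
  have hg : ∀ y n, g y n = √(lam n ^ k) * fy k y (lam n) := by
    intro y n
    simp only [g, e, lp.coeFn_sub, lp.coeFn_smul, Pi.sub_apply, Pi.smul_apply, smul_eq_mul, fy]
    ring
  have hnorm : ∀ v : lp (fun _ : ℕ => ℝ) 2, HasSum (fun n => v n ^ 2) (‖v‖ ^ 2) := by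
    intro v
    have := lp.hasSum_inner (𝕜 := ℝ) v v
    simpa [real_inner_self_eq_norm_sq] using this
  let Z : Set (lp (fun _ : ℕ => ℝ) 2) :=
    {v | (lam 1 - lam 0) * v 0 ^ 2 ≤ 3 * (‖v‖ ^ 2 - v 0 ^ 2)}
  have hZ : IsClosed Z := by
    have : Continuous fun v : lp (fun _ : ℕ => ℝ) 2 => v 0 :=
      (lp.lipschitzWith_one_eval 2 0).continuous
    exact isClosed_le (continuous_const.mul (this.pow 2))
      (continuous_const.mul ((continuous_norm.pow 2).sub (this.pow 2)))
  have hK : (Submodule.span ℝ (range g) : Set _) ⊆ Z := by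
    intro v hv
    obtain ⟨c, rfl⟩ := Finsupp.mem_span_range_iff_exists_finsupp.1 hv
    let f : ℝ → ℝ := fun u => ∑ y ∈ c.support, c y * fy k y u
    let f' : ℝ → ℝ := fun u => ∑ y ∈ c.support, c y * fy' k y u
    have hv2 : ∀ n, (c.sum fun i a => a • g i) n ^ 2 = lam n ^ k * f (lam n) ^ 2 := by
      intro n
      rw [← sq_sqrt (pow_nonneg (hpos n) k), ← mul_pow, Finsupp.sum, lp.coeFn_sum,
        Finset.sum_apply, Finset.mul_sum]
      congr 1
      refine Finset.sum_congr rfl fun y _ => ?_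
      rw [lp.coeFn_smul, Pi.smul_apply, hg, smul_eq_mul]
      ring
    have hq : ∀ (F : ℝ → ℝ → ℝ), (fun u => u ^ k * (∑ y ∈ c.support, c y * F y u) ^ 2) = fun u =>
        ∑ y ∈ c.support, ∑ z ∈ c.support, c y * c z * (u ^ k * (F y u * F z u)) := by
      intro F
      funext u
      rw [sq, Finset.sum_mul_sum, Finset.mul_sum]
      refine Finset.sum_congr rfl fun y _ => ?_
      rw [Finset.mul_sum]
      refine Finset.sum_congr rfl fun z _ => by ring
    have hs := hnorm (c.sum fun i a => a • g i)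
    simp only [hv2] at hs
    have hs' := (hasSum_nat_add_iff' 1).2 hs
    have := sampling k f f'
      (fun u => HasDerivAt.fun_sum fun y _ => (fy_deriv k y u).const_mul (c y))
      (by unfold f' fy'; fun_prop)
      (by
        rw [hq (fy k)]
        exact integrable_finsetSum _ fun y _ => integrable_finsetSum _ fun z _ =>
          (pair k y.2 z.2).1.const_mul _)
      (by
        rw [hq (fy' k)]
        exact integrable_finsetSum _ fun y _ => integrable_finsetSum _ fun z _ =>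
          (pair k y.2 z.2).2.1.const_mul _)
      (by
        rw [hq (fy k), hq (fy' k), integral_finsetSum, integral_finsetSum]
        · refine Finset.sum_congr rfl fun y _ => ?_
          rw [integral_finsetSum, integral_finsetSum]
          · refine Finset.sum_congr rfl fun z _ => ?_
            rw [integral_const_mul, integral_const_mul, (pair k y.2 z.2).2.2]
          · exact fun z _ => (pair k y.2 z.2).2.1.const_mul _
          · exact fun z _ => (pair k y.2 z.2).1.const_mul _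
        · exact fun y _ => integrable_finsetSum _ fun z _ => (pair k y.2 z.2).2.1.const_mul _
        · exact fun y _ => integrable_finsetSum _ fun z _ => (pair k y.2 z.2).1.const_mul _)
      lam h0 hmono.monotone h1 hgap hinf hs'.summable
    rw [hs'.tsum_eq] at this
    simp only [Z, mem_ofPred_eq, hv2]
    simpa using this
  have hne : (Submodule.span ℝ (range g))ᗮ ≠ ⊥ := by
    intro h
    rw [← Submodule.topologicalClosure_eq_top_iff] at h
    have h2 : (lp.single 2 0 1 : lp (fun _ : ℕ => ℝ) 2) ∈ Z := by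
      apply closure_minimal hK hZ
      rw [← Submodule.topologicalClosure_coe, h]
      trivial
    simp only [Z, mem_ofPred_eq, lp.single_apply_self, lp.norm_single two_pos] at h2
    have := hmono (Nat.zero_lt_one)
    norm_num at h2
    linarith
  obtain ⟨a, ha, ha0⟩ := Submodule.exists_mem_ne_zero_of_ne_bot hne
  refine ⟨a, (hnorm a).summable, fun h => ha0 (Subtype.ext h), fun y hy => ?_⟩
  have h3 : inner ℝ (g ⟨y, hy⟩) a = 0 :=
    (Submodule.mem_orthogonal _ _).1 ha _ (Submodule.subset_span ⟨_, rfl⟩)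
  simp only [g, inner_sub_left, inner_smul_left, lp.inner_eq_tsum, e] at h3
  rw [sub_eq_zero] at h3
  simpa [mul_assoc] using h3

end Pool.Agent.H.MP_bac04d_nt
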