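import Mathlib


namespace Pool.Agent.H.MP_bac04d_nt

open Complex MeasureTheory Set Filter Topology Asymptotics
open scoped Real ComplexConjugate

lemma mellin_strip (f : ℝ → ℂ) (hf : ∀ w, MellinConvergent f w) (a b : ℝ) :
    ∃ K, ∀ w : ℂ, a ≤ w.re → w.re ≤ b → ‖mellin f w‖ ≤ K := by
  have ha := (hf a).norm
  have hb := (hf b).norm
  refine ⟨∫ t in Ioi (0 : ℝ), (‖(t : ℂ) ^ ((a : ℂ) - 1) • f t‖ + ‖(t : ℂ) ^ ((b : ℂ) - 1) • f t‖),
    fun w h1 h2 => ?_⟩
  refine norm_integral_le_of_norm_le (ha.add hb) ?_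
  filter_upwards [ae_restrict_mem measurableSet_Ioi] with t ht
  have ht' : 0 < t := ht
  simp only [norm_smul, norm_cpow_eq_rpow_re_of_pos ht', sub_re, one_re, ofReal_re]
  rw [← add_mul]
  refine mul_le_mul_of_nonneg_right ?_ (norm_nonneg _)
  rcases le_total t 1 with h | h
  · have := Real.rpow_le_rpow_of_exponent_ge ht' h (show a - 1 ≤ w.re - 1 by linarith)
    have := Real.rpow_nonneg ht'.le (b - 1)
    linarith
  · have := Real.rpow_le_rpow_of_exponent_le h (show w.re - 1 ≤ b - 1 by linarith)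
    have := Real.rpow_nonneg ht'.le (a - 1)
    linarith

lemma mellin_conj (f : ℝ → ℝ) (w : ℂ) :
    mellin (fun t => (f t : ℂ)) (conj w) = conj (mellin (fun t => (f t : ℂ)) w) := by
  rw [mellin, mellin, ← integral_conj]
  refine setIntegral_congr_fun measurableSet_Ioi fun t ht => ?_
  have ht' : 0 < t := ht
  simp only [smul_eq_mul, map_mul, conj_ofReal]
  congr 1
  have : (t : ℂ).arg ≠ π := by
    rw [arg_ofReal_of_nonneg ht'.le]; exact Real.pi_ne_zero.symm
  have h := conj_cpow (t : ℂ) (conj w - 1) this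
  rw [conj_ofReal] at h
  rw [h]; simp

theorem theta (k : ℕ) (hk : 0 < k) (lam A : ℕ → ℝ) (h0 : 0 < lam 0) (hl : ∀ n, lam 0 ≤ lam n)
    (hA : ∀ y : ℝ, 0 < y → Summable fun n => |A n| * Real.exp (-y * lam n))
    (hfe : ∀ y : ℝ, 0 < y → ∑' n, A n * Real.exp (-y * lam n) =
      (y ^ k)⁻¹ * ∑' n, A n * Real.exp (-y⁻¹ * lam n)) :
    ∃ Λ : ℂ → ℂ, Differentiable ℂ Λ ∧ (∀ w, Λ (k - w) = Λ w) ∧
      (∀ a b : ℝ, ∃ K, ∀ w : ℂ, a ≤ w.re → w.re ≤ b → ‖Λ w‖ ≤ K) ∧
      (∀ w, Λ (conj w) = conj (Λ w)) ∧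
      ∀ w : ℂ, 0 < w.re → Summable (fun n => |A n| / lam n ^ w.re) →
        HasSum (fun n => Gamma w * (A n : ℂ) / (lam n : ℂ) ^ w) (Λ w) := by
  obtain ⟨θ, hθ⟩ : ∃ θ : ℝ → ℝ, θ = fun y => ∑' n, A n * Real.exp (-y * lam n) := ⟨_, rfl⟩
  have hpos : ∀ n, 0 < lam n := fun n => h0.trans_le (hl n)
  have hnorm : ∀ y n, ‖A n * Real.exp (-y * lam n)‖ = |A n| * Real.exp (-y * lam n) := by
    intro y n; rw [norm_mul, Real.norm_eq_abs, Real.norm_eq_abs, abs_of_pos (Real.exp_pos _)]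
  have hs : ∀ y : ℝ, 0 < y → Summable fun n => A n * Real.exp (-y * lam n) := fun y hy =>
    Summable.of_norm (by simpa only [hnorm] using hA y hy)
  have hcont : ContinuousOn θ (Ioi 0) := fun x hx => by
    have hx' : 0 < x := hx
    have h1 : ContinuousOn θ (Ici (x / 2)) := by
      rw [hθ]
      refine continuousOn_tsum (fun n => by fun_prop) (hA (x / 2) (by positivity)) fun n y hy => ?_
      rw [hnorm]
      refine mul_le_mul_of_nonneg_left (Real.exp_le_exp.2 ?_) (abs_nonneg _)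
      have : x / 2 ≤ y := hy
      nlinarith [hpos n]
    exact (h1.continuousAt (Ici_mem_nhds (by linarith))).continuousWithinAt
  have hint : LocallyIntegrableOn (fun y => (θ y : ℂ)) (Ioi 0) :=
    (continuous_ofReal.comp_continuousOn hcont).locallyIntegrableOn measurableSet_Ioi
  have htop : ∀ r : ℝ, (fun y => (θ y : ℂ) - 0) =O[atTop] (· ^ r) := fun r => by
    refine IsBigO.trans ?_ (isLittleO_exp_neg_mul_rpow_atTop h0 r).isBigO
    refine IsBigO.of_bound (Real.exp (lam 0) * ∑' n, |A n| * Real.exp (-1 * lam n)) ?_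
    filter_upwards [eventually_ge_atTop (1 : ℝ)] with y hy
    rw [sub_zero, norm_real, Real.norm_eq_abs (Real.exp _), abs_of_pos (Real.exp_pos _), hθ,
      mul_right_comm, ← tsum_mul_left]
    refine tsum_of_norm_bounded ((hA 1 one_pos).mul_left _).hasSum fun n => ?_
    rw [hnorm, mul_left_comm, ← Real.exp_add, ← Real.exp_add]
    refine mul_le_mul_of_nonneg_left (Real.exp_le_exp.2 ?_) (abs_nonneg _)
    nlinarith [hl n]
  have hfe' : ∀ x ∈ Ioi (0 : ℝ), (θ (1 / x) : ℂ) = ((1 : ℂ) * ↑(x ^ (k : ℝ))) • (θ x : ℂ) := by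
    intro x hx
    have hx' : 0 < x := hx
    have := hfe x hx'
    rw [one_mul, smul_eq_mul, ← ofReal_mul, Real.rpow_natCast, hθ]
    simp only [one_div]
    rw [this, mul_inv_cancel_left₀ (pow_pos hx' k).ne']
  let P : WeakFEPair ℂ :=
    { f := fun y => (θ y : ℂ), g := fun y => (θ y : ℂ), k := k, ε := 1, f₀ := 0, g₀ := 0
      hf_int := hint, hg_int := hint, hk := by exact_mod_cast hk, hε := one_ne_zero
      h_feq := hfe', hf_top := htop, hg_top := htop }
  have hP : IsStrongFEPair P := ⟨rfl, rfl⟩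
  have e1 : P.Λ = mellin fun y => (θ y : ℂ) := hP.Λ_eq
  have e2 : P.symm.Λ = mellin fun y => (θ y : ℂ) := hP.symm_Λ_eq
  refine ⟨mellin fun y => (θ y : ℂ), e1 ▸ hP.differentiable_Λ, fun w => ?_,
    mellin_strip _ fun w => (hP.hasMellin w).1, mellin_conj θ, fun w hw hsw => ?_⟩
  · have := P.functional_equation w
    rw [e1, e2] at this
    simpa [P] using this
  · refine hasSum_mellin (fun n => Or.inr (hpos n)) hw (fun t ht => ?_) (by simpa using hsw)
    have := hasSum_ofReal.2 (hs t ht).hasSum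
    rw [hθ]
    simpa [mul_comm] using this

end Pool.Agent.H.MP_bac04d_nt
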