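import Mathlib
import Pool.Agent.H.MP_bac04d_nt.Rel
import Pool.Agent.H.MP_bac04d_nt.Gro
import Pool.Agent.H.MP_bac04d_nt.Theta


namespace Pool.Agent.H.MP_bac04d_nt

open Complex MeasureTheory Set Filter Topology Asymptotics
open scoped Real ComplexConjugate

lemma summ_mul {a b : ℕ → ℝ} (ha : Summable fun n => a n ^ 2) (hb : Summable fun n => b n ^ 2) :
    Summable fun n => |a n| * |b n| := by
  refine Summable.of_nonneg_of_le (fun n => by positivity) (fun n => ?_) (ha.add hb)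
  nlinarith [sq_nonneg (|a n| - |b n|), sq_abs (a n), sq_abs (b n), abs_nonneg (a n),
    abs_nonneg (b n)]

lemma summ_rpow {e : ℝ} (he : e < -1) : Summable fun n : ℕ => ((n : ℝ) + 1) ^ e := by
  have := (summable_nat_add_iff 1).2 (Real.summable_nat_rpow.2 he)
  simpa using this

/-- existence of the coefficients -/
lemma coeffs (β : ℝ) (k : ℕ) (hβ : 0 < β) (hβ1 : β ≤ 1) (hk : 1 < β * k) :
    ∃ a : ℕ → ℝ, Summable (fun n => a n ^ 2) ∧ a ≠ 0 ∧
      (∀ y : ℝ, 0 < y → Summable fun n : ℕ =>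
        |a n * √((1 / 8 * ((n : ℝ) + 1) ^ β) ^ k)| * Real.exp (-y * (1 / 8 * ((n : ℝ) + 1) ^ β))) ∧
      ∀ y : ℝ, 0 < y → ∑' n : ℕ, a n * √((1 / 8 * ((n : ℝ) + 1) ^ β) ^ k) *
          Real.exp (-y * (1 / 8 * ((n : ℝ) + 1) ^ β)) =
        (y ^ k)⁻¹ * ∑' n : ℕ, a n * √((1 / 8 * ((n : ℝ) + 1) ^ β) ^ k) *
          Real.exp (-y⁻¹ * (1 / 8 * ((n : ℝ) + 1) ^ β)) := by
  have hsum : ∀ y : ℝ, 0 < y → Summable fun n : ℕ => (1 / 8 * ((n : ℝ) + 1) ^ β) ^ k *
      Real.exp (-y * (1 / 8 * ((n : ℝ) + 1) ^ β)) := by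
    intro y hy
    refine Summable.of_nonneg_of_le (fun n => by positivity) (fun n => ?_)
      ((summ_rpow (e := -(β * k)) (by linarith)).mul_left
        (((2 * k).factorial : ℝ) / y ^ (2 * k) * 8 ^ k))
    obtain ⟨x, hx⟩ : ∃ x : ℝ, x = ((n : ℝ) + 1) ^ β := ⟨_, rfl⟩
    have hx0 : 0 < x := by rw [hx]; positivity
    have h1 : ((n : ℝ) + 1) ^ (-(β * k)) = (x ^ k)⁻¹ := by
      rw [Real.rpow_neg (by positivity), Real.rpow_mul (by positivity), Real.rpow_natCast, hx]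
    rw [h1, ← hx, neg_mul, Real.exp_neg]
    have h2 := Real.pow_div_factorial_le_exp (y * (1 / 8 * x)) (by positivity) (2 * k)
    have h3 : (0 : ℝ) < (2 * k).factorial := by positivity
    have h4 := inv_anti₀ (by positivity) h2
    refine (mul_le_mul_of_nonneg_left h4 (by positivity)).trans (le_of_eq ?_)
    simp only [mul_pow, pow_mul', one_div, inv_pow]
    field_simp
  obtain ⟨a, h1, h2, h3⟩ := exists_rel k (fun n => 1 / 8 * ((n : ℝ) + 1) ^ β) (by positivity)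
    (fun m n h => by
      have : (m : ℝ) < n := by exact_mod_cast h
      have := Real.rpow_lt_rpow (by positivity) (show (m : ℝ) + 1 < n + 1 by linarith) hβ
      simp only; linarith)
    (by
      have := Real.rpow_le_rpow_of_exponent_le (show (1 : ℝ) ≤ 2 by norm_num) hβ1
      norm_num at this ⊢; linarith)
    (fun n => by
      have := Real.rpow_add_le_add_rpow (a := (n : ℝ) + 1) (b := 1) (by positivity) zero_le_one
        hβ.le hβ1
      rw [Real.one_rpow] at this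
      push_cast; linarith)
    (by
      refine Tendsto.const_mul_atTop (by norm_num) ((tendsto_rpow_atTop hβ).comp ?_)
      exact tendsto_atTop_add_const_right _ _ tendsto_natCast_atTop_atTop)
    hsum
  refine ⟨a, h1, h2, fun y hy => ?_, h3⟩
  have := summ_mul (b := fun n : ℕ => √((1 / 8 * ((n : ℝ) + 1) ^ β) ^ k) *
    Real.exp (-y * (1 / 8 * ((n : ℝ) + 1) ^ β))) h1 (by
      refine (hsum (2 * y) (by positivity)).congr fun n => ?_
      rw [mul_pow (√_), Real.sq_sqrt (by positivity), ← Real.exp_nat_mul]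
      congr 2; push_cast; ring)
  refine this.congr fun n => ?_
  simp only [abs_mul, abs_of_pos (Real.exp_pos _), mul_assoc]

lemma cp {t : ℝ} (ht : 0 < t) (w : ℂ) : (t : ℂ) ^ w = cexp ((Real.log t : ℂ) * w) := by
  rw [cpow_def_of_ne_zero (ofReal_ne_zero.2 ht.ne'), ofReal_log ht.le]

theorem main (d : ℝ) (hd : 2 ≤ d) : ∃ (F : ℂ → ℂ) (a : ℕ → ℂ) (Q μ : ℝ),
    Differentiable ℂ F ∧ F ≠ 0 ∧
    (∀ s : ℂ, 1 < s.re → LSeriesSummable a s ∧ F s = LSeries a s) ∧
    (∀ σ₁ σ₂ : ℝ, ∃ C M : ℝ, ∀ s : ℂ, σ₁ ≤ s.re → s.re ≤ σ₂ → ‖F s‖ ≤ C * (1 + |s.im|) ^ M) ∧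
    0 < Q ∧ 0 ≤ μ ∧
    ∃ Φ : ℂ → ℂ, Differentiable ℂ Φ ∧
      (∀ s : ℂ, (∀ m : ℕ, d / 2 * s + μ ≠ -m) → Φ s = Q ^ s * Gamma (d / 2 * s + μ) * F s) ∧
      ∀ s : ℂ, Φ s = conj (Φ (1 - conj s)) := by
  have hd0 : 0 < d := by linarith
  obtain ⟨k, hk⟩ := exists_nat_ge d
  obtain ⟨β, hβ⟩ : ∃ β : ℝ, β = 2 / d := ⟨_, rfl⟩
  have hβd : β * d = 2 := by rw [hβ]; field_simp
  have hβ0 : 0 < β := by rw [hβ]; positivity
  obtain ⟨a, ha2, ha0, hA, hfe⟩ := coeffs β k hβ0 (by nlinarith) (by nlinarith)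
  obtain ⟨c, hc⟩ : ∃ c : ℝ, c = 1 / 8 := ⟨_, rfl⟩
  rw [← hc] at hA hfe
  have hc0 : 0 < c := by rw [hc]; norm_num
  obtain ⟨μ, hμ⟩ : ∃ μ : ℝ, μ = k / 2 - d / 4 := ⟨_, rfl⟩
  have hμ0 : 0 < μ := by linarith
  have hk0 : 0 < k := by
    have : (0 : ℝ) < k := by linarith
    exact_mod_cast this
  obtain ⟨Λ, hΛd, hΛfe, hΛb, hΛc, hΛs⟩ := theta k hk0 (fun n => c * ((n : ℝ) + 1) ^ β)
    (fun n => a n * √((c * ((n : ℝ) + 1) ^ β) ^ k)) (by positivity)
    (fun n => by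
      refine mul_le_mul_of_nonneg_left (Real.rpow_le_rpow (by positivity) ?_ hβ0.le) hc0.le
      simp)
    hA hfe
  have hlp : ∀ n : ℕ, 0 < c * ((n : ℝ) + 1) ^ β := fun n => by positivity
  have hsq : ∀ n : ℕ, √((c * ((n : ℝ) + 1) ^ β) ^ k) = (c * ((n : ℝ) + 1) ^ β) ^ ((k : ℝ) / 2) :=
    fun n => by
      rw [Real.sqrt_eq_rpow, ← Real.rpow_natCast, ← Real.rpow_mul (hlp n).le]; congr 1; ring
  have hsm : ∀ r : ℝ, d / 2 + μ < r → Summable fun n : ℕ =>
      |a n * √((c * ((n : ℝ) + 1) ^ β) ^ k)| / (c * ((n : ℝ) + 1) ^ β) ^ r := by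
    intro r hr
    have h1 : Summable fun n : ℕ => ((c * ((n : ℝ) + 1) ^ β) ^ ((k : ℝ) / 2 - r)) ^ 2 := by
      refine ((summ_rpow (e := β * (k - 2 * r)) (by nlinarith)).mul_left
        (c ^ ((k : ℝ) - 2 * r))).congr fun n => ?_
      rw [← Real.rpow_natCast, ← Real.rpow_mul (hlp n).le, Real.rpow_mul (by positivity),
        ← Real.mul_rpow hc0.le (by positivity)]
      congr 1; push_cast; ring
    refine (summ_mul ha2 h1).congr fun n => ?_
    rw [abs_mul, hsq, Real.rpow_sub (hlp n), abs_div, abs_of_pos (Real.rpow_pos_of_pos (hlp n) r),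
      mul_div_assoc]
  have hL : ∀ w : ℂ, d / 2 + μ < w.re → HasSum (fun n : ℕ =>
      ((a n * √((c * ((n : ℝ) + 1) ^ β) ^ k) : ℝ) : ℂ) / ((c * ((n : ℝ) + 1) ^ β : ℝ) : ℂ) ^ w)
      (Λ w * (Gamma w)⁻¹) := by
    intro w hw
    have hw0 : 0 < w.re := by linarith
    have := (hΛs w hw0 (hsm _ hw)).mul_right (Gamma w)⁻¹
    have hG := Gamma_ne_zero_of_re_pos hw0
    refine (congrArg (fun f => HasSum f _) (funext fun n => ?_)).mp this
    rw [mul_div_assoc, mul_right_comm, mul_inv_cancel₀ hG, one_mul]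
  have hgr := growth Λ k hΛd hΛfe hΛb (d / 2 + μ + 1) (fun r hr => ⟨_, fun w hw => by
      rw [← (hL w (by linarith)).tsum_eq]
      refine tsum_of_norm_bounded (hsm r (by linarith)).hasSum fun n => ?_
      rw [norm_div, norm_real, norm_cpow_eq_rpow_re_of_pos (hlp n), hw, Real.norm_eq_abs]⟩)
  obtain ⟨W, hW⟩ : ∃ W : ℂ → ℂ, W = fun s : ℂ => d / 2 * s + μ := ⟨_, rfl⟩
  have hWre : ∀ s, (W s).re = d / 2 * s.re + μ := fun s => by
    have : ((d : ℂ) / 2) = ((d / 2 : ℝ) : ℂ) := by push_cast; ring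
    rw [hW]; simp only [this, add_re, re_ofReal_mul, ofReal_re]
  have hWim : ∀ s, (W s).im = d / 2 * s.im := fun s => by
    have : ((d : ℂ) / 2) = ((d / 2 : ℝ) : ℂ) := by push_cast; ring
    rw [hW]; simp only [this, add_im, im_ofReal_mul, ofReal_im, add_zero]
  have hWd : Differentiable ℂ W := by rw [hW]; fun_prop
  obtain ⟨F, hF⟩ : ∃ F : ℂ → ℂ,
    F = fun s : ℂ => cexp (Real.log c * W s) * (Λ (W s) * (Gamma (W s))⁻¹) := ⟨_, rfl⟩
  obtain ⟨b, hb⟩ : ∃ b : ℕ → ℂ,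
    b = fun n : ℕ => ((a (n - 1) * rexp (k / 2 * Real.log c + 1 / 2 * Real.log n) : ℝ) : ℂ) := ⟨_, rfl⟩
  have hFs : ∀ s : ℂ, 1 < s.re → HasSum (LSeries.term b s) (F s) := by
    intro s hs
    have h1 := (hL (W s) (by rw [hWre]; nlinarith)).mul_left (cexp (Real.log c * W s))
    rw [← hasSum_nat_add_iff' 1]
    simp only [Finset.range_one, Finset.sum_singleton, LSeries.term_zero, sub_zero]
    rw [hF]
    refine (congrArg (fun f => HasSum f _) (funext fun n => Eq.symm ?_)).mp h1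
    have hx : (0 : ℝ) < (n : ℝ) + 1 := by positivity
    have e1 : ((n + 1 : ℕ) : ℂ) = (((n : ℝ) + 1 : ℝ) : ℂ) := by push_cast; ring
    have e2 : Real.log (c * ((n : ℝ) + 1) ^ β) = Real.log c + β * Real.log ((n : ℝ) + 1) := by
      rw [Real.log_mul hc0.ne' (by positivity), Real.log_rpow hx]
    rw [LSeries.term_of_ne_zero (Nat.succ_ne_zero n), hb, hsq, cp (hlp n), e1, cp hx,
      Real.rpow_def_of_pos (hlp n), e2, hW]
    simp only [Nat.succ_eq_add_one, Nat.add_sub_cancel, Nat.cast_add, Nat.cast_one, ofReal_mul, ofReal_exp,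
      div_eq_mul_inv (_ * _) (cexp _), ← exp_neg]
    rw [mul_assoc, mul_assoc, mul_left_comm (cexp _), ← exp_add, ← exp_add, ← exp_add]
    congr 2
    have e3 : (β : ℂ) * d = 2 := by exact_mod_cast hβd
    have e4 : (μ : ℂ) = k / 2 - d / 4 := by rw [hμ]; push_cast; ring
    rw [e4]
    push_cast
    linear_combination (-(Real.log ((n : ℝ) + 1) : ℂ) * (1 / 4 - s / 2)) * e3
  refine ⟨F, b, c ^ (-(d / 2)), μ, ?_, ?_, fun s hs => ⟨(hFs s hs).summable, (hFs s hs).tsum_eq.symm⟩,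
    fun σ₁ σ₂ => ?_, by positivity, hμ0.le, fun s => cexp (Real.log c * μ) * Λ (W s), ?_,
    fun s hs => ?_, fun s => ?_⟩
  · rw [hF]
    exact (Differentiable.cexp (hWd.const_mul _)).mul
      ((hΛd.mul differentiable_one_div_Gamma).comp hWd)
  · intro h0
    have h1 : (fun x : ℝ => LSeries b x) =ᶠ[atTop] 0 := by
      filter_upwards [eventually_gt_atTop (1 : ℝ)] with x hx
      have := (hFs x (by simpa using hx)).tsum_eq
      rw [h0] at this
      exact this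
    rcases LSeries_eventually_eq_zero_iff'.1 h1 with h | h
    · apply ha0
      funext n
      have := h (n + 1) (Nat.succ_ne_zero n)
      rw [hb] at this
      simp only [Nat.add_sub_cancel, ofReal_eq_zero, mul_eq_zero, Real.exp_ne_zero, or_false] at this
      exact this
    · have h2 : LSeriesSummable b 2 := (hFs 2 (by simp)).summable
      have := h2.abscissaOfAbsConv_le
      rw [h] at this
      simp at this
  · obtain ⟨C, M, hC0, hC⟩ := hgr (d / 2 * σ₁ + μ) (d / 2 * σ₂ + μ)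
    refine ⟨rexp (Real.log c * (d / 2 * σ₁ + μ)) * (C * (d / 2) ^ M), M, fun s h1 h2 => ?_⟩
    have h3 := hC (W s) (by rw [hWre]; nlinarith) (by rw [hWre]; nlinarith)
    have h4 : Real.log c ≤ 0 := Real.log_nonpos hc0.le (by linarith)
    rw [hF, Real.rpow_natCast, mul_assoc]
    simp only [norm_mul (cexp _)]
    refine mul_le_mul ?_ (h3.trans ?_) (norm_nonneg _) (Real.exp_pos _).le
    · rw [norm_exp, re_ofReal_mul, hWre]
      exact Real.exp_le_exp.2 (mul_le_mul_of_nonpos_left (by nlinarith) h4)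
    · rw [mul_assoc, ← mul_pow, hWim, abs_mul, abs_of_pos (show 0 < d / 2 by linarith)]
      refine mul_le_mul_of_nonneg_left (pow_le_pow_left₀ (by positivity) ?_ _) hC0
      linarith
  · exact (hΛd.comp hWd).const_mul _
  · have hG := Gamma_ne_zero hs
    have e1 : (d : ℂ) / 2 * s + μ = W s := by rw [hW]
    rw [e1] at hG ⊢
    rw [cp (by positivity), Real.log_rpow hc0, hF]
    have e2 : cexp (Real.log c * μ) =
        cexp (((-(d / 2) * Real.log c : ℝ) : ℂ) * s) * cexp (Real.log c * W s) := by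
      rw [← exp_add, ← e1]; congr 1; push_cast; ring
    simp only [e2]
    field_simp
  · have e1 : W (1 - conj s) = conj (k - W s) := by
      have e4 : (μ : ℂ) = k / 2 - d / 4 := by rw [hμ]; push_cast; ring
      rw [hW]
      simp only [map_sub, map_add, map_mul, map_div₀, conj_ofReal, map_natCast, map_ofNat]
      rw [e4]; ring
    simp only [e1, hΛc, hΛfe, map_mul, conj_conj, ← exp_conj, conj_ofReal]

end Pool.Agent.H.MP_bac04d_nt
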